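import Mathlib
import Pool.Agent.H.MP_a79530_al.Ideal

set_option autoImplicit false

open MvPolynomial

namespace Pool.Agent.Results.MP_0bcfe8_al.NotStrict

open Pool.Agent.H.MP_a79530_al

/-- The v-number: least degree of a homogeneous `f` with `(I : f)` prime. -/
noncomputable def vnum {K : Type*} [Field K] {n : ℕ} (I : Ideal (MvPolynomial (Fin n) K)) : ℕ :=
  sInf {d | ∃ f : MvPolynomial (Fin n) K, f.IsHomogeneous d ∧ (I.colon {f}).IsPrime}

/-- An ideal whose square does not have larger v-number. -/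
theorem result (K : Type*) [Field K] : ∃ (n : ℕ) (s : Set (MvPolynomial (Fin n) K))
    (I : Ideal (MvPolynomial (Fin n) K)), (∀ f ∈ s, ∃ d, f.IsHomogeneous d) ∧
    I = Ideal.span s ∧ I ≠ ⊥ ∧ I ≠ ⊤ ∧ 0 < vnum (I ^ 2) ∧ vnum (I ^ 2) ≤ vnum I := by
  have h3 : (X 3 * X 4 * X 5 : MvPolynomial (Fin 6) K).IsHomogeneous 3 :=
    ((isHomogeneous_X K _).mul (isHomogeneous_X K _)).mul (isHomogeneous_X K _)
  have h2 := (colon_pow (K := K) 0).symm ▸ m_max.isPrime
  refine ⟨6, gens K, _, fun f hf => ⟨2, gens_hom f hf⟩, rfl, fun h => ?_, fun h => ?_, ?_, ?_⟩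
  · have : X 0 * X 1 ∈ Ideal.span (gens K) := Ideal.subset_span (by simp [gens])
    simp [h] at this
  · exact m_max.ne_top (eq_top_iff.2 (h.ge.trans (le_sq.trans (Ideal.pow_le_self two_ne_zero))))
  · refine Nat.succ_le_iff.1 (le_csInf ⟨_, _, hom_pow 0, h2⟩ ?_)
    rintro d ⟨f, hd, hf⟩
    by_contra h
    obtain rfl : d = 0 := by omega
    rw [← totalDegree_zero_iff_isHomogeneous, totalDegree_eq_zero_iff_eq_C] at hd
    have h0 : ∀ g ∈ Ideal.span (gens K), g ∈ Ideal.span (gens K) ^ 2 ∨ coeff 0 f = 0 := by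
      intro g hg
      have := Submodule.mem_colon_singleton.1 (hf.mem_of_pow_mem 2 (Submodule.mem_colon_singleton.2
        (Ideal.mul_mem_right f _ (Ideal.pow_mem_pow hg 2))))
      rw [hd, smul_eq_mul] at this
      by_cases h : coeff 0 f = 0
      · exact Or.inr h
      · exact Or.inl ((Ideal.mul_unit_mem_iff_mem _ ((IsUnit.mk0 _ h).map C)).1 this)
    rcases h0 (X 0 * X 1) (Ideal.subset_span (by simp [gens])) with h | h
    · have := Ideal.pow_right_mono le_sq 2 h
      rw [← pow_mul, X, X, monomial_mul, monomial_mem_pow_idealOfVars_iff _ _ (by simp)] at this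
      simp at this
    · refine hf.ne_top ((Ideal.eq_top_iff_one _).2 (Submodule.mem_colon_singleton.2 ?_))
      rw [hd, h]
      simp
  · refine le_trans (b := 3) (Nat.sInf_le ⟨_, hom_pow 0, h2⟩)
      (le_csInf ⟨_, _, h3, (colon_one (K := K)).symm ▸ m_max.isPrime⟩ ?_)
    rintro d ⟨f, hd, hf⟩
    exact three_le f d hd hf

end Pool.Agent.Results.MP_0bcfe8_al.NotStrict
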